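import Pool.Agent.N804.LI.Stm

/-! Linear independence over the rational numbers and balanced words (project LI of helper804;
helper169). -/

set_option autoImplicit false

namespace Pool.Agent.N169.LI

open Pool.Agent.N804.LI

open Classical in
theorem ws_eq {ι : Type} (lam : ι → ℝ) (p : Wd (ι × Bool)) (I : Finset ι)
    (hI : ∀ j, (p.2 j).1 ∈ I) : ws (sg lam) p =
      ∑ i ∈ I, ((Nat.card {j : Fin p.1 // p.2 j = (i, true)} : ℝ) -
        Nat.card {j : Fin p.1 // p.2 j = (i, false)}) * lam i := by
  have hc : ∀ k : ι × Bool, (Nat.card {j : Fin p.1 // p.2 j = k} : ℝ) =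
      ∑ j, if p.2 j = k then (1 : ℝ) else 0 := by
    intro k
    rw [Nat.card_eq_fintype_card, Fintype.card_subtype, Finset.sum_boole]
  unfold ws
  simp_rw [hc, ← Finset.sum_sub_distrib, Finset.sum_mul]
  rw [Finset.sum_comm]
  refine Finset.sum_congr rfl fun j _ => ?_
  rw [Finset.sum_eq_single (p.2 j).1]
  · rcases h : p.2 j with ⟨i, b⟩
    cases b
    · simp [sg]
    · simp [sg]
  · intro i _ hi
    rw [if_neg (fun h => hi (by rw [h])), if_neg (fun h => hi (by rw [h])), sub_zero, zero_mul]
  · intro h
    exact absurd (hI j) h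

theorem main : S_COMB := by
  classical
  intro ι lam
  refine ⟨fun p hp => ?_, ?_, ?_⟩
  · rw [ws_eq lam p (Finset.univ.image fun j => (p.2 j).1)
      (fun j => Finset.mem_image_of_mem _ (Finset.mem_univ j))]
    refine Finset.sum_eq_zero fun i _ => ?_
    rw [hp i, sub_self, zero_mul]
  · intro hlin p hp i
    have h1 := ws_eq lam p (insert i (Finset.univ.image fun j => (p.2 j).1))
      (fun j => Finset.mem_insert_of_mem (Finset.mem_image_of_mem _ (Finset.mem_univ j)))
    rw [hp] at h1
    have h2 := linearIndependent_iff'.1 hlin (insert i (Finset.univ.image fun j => (p.2 j).1))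
      (fun i => (Nat.card {j : Fin p.1 // p.2 j = (i, true)} : ℚ) -
        Nat.card {j : Fin p.1 // p.2 j = (i, false)}) (by
        rw [h1]
        refine Finset.sum_congr rfl fun i _ => ?_
        rw [Rat.smul_def]
        push_cast
        rfl) i (Finset.mem_insert_self _ _)
    have h3 := sub_eq_zero.1 h2
    exact_mod_cast h3
  · intro h
    rw [← LinearIndependent.iff_fractionRing ℤ ℚ, linearIndependent_iff']
    intro s g hg i hi
    by_contra hgi
    let T : Type := Σ i : s, Fin (g i).natAbs
    let e : T ≃ Fin (Fintype.card T) := Fintype.equivFin T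
    let w : T → ι × Bool := fun t => ((t.1 : ι), decide (0 < g t.1))
    let p : Wd (ι × Bool) := ⟨Fintype.card T, fun k => w (e.symm k)⟩
    have hws : ws (sg lam) p = 0 := by
      show ∑ k : Fin (Fintype.card T), sg lam (w (e.symm k)) = 0
      rw [Equiv.sum_comp e.symm (fun t => sg lam (w t)), Fintype.sum_sigma]
      have h1 : ∀ i : s, ∑ _k : Fin (g i).natAbs, sg lam ((i : ι), decide (0 < g i)) =
          g i • lam i := by
        intro i
        rw [Finset.sum_const, Finset.card_univ, Fintype.card_fin, nsmul_eq_mul, zsmul_eq_mul]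
        unfold sg
        by_cases hp : 0 < g i
        · rw [if_pos (by simpa using hp)]
          rw [Nat.cast_natAbs, abs_of_pos hp]
        · rw [if_neg (by simpa using hp)]
          rw [Nat.cast_natAbs, abs_of_nonpos (not_lt.1 hp)]
          push_cast
          ring
      rw [← hg, ← Finset.sum_coe_sort s]
      exact Finset.sum_congr rfl fun i _ => h1 i
    have hb := h p hws i
    have h0 : 0 < (g i).natAbs := Int.natAbs_pos.2 hgi
    have hk : p.2 (e ⟨⟨i, hi⟩, ⟨0, h0⟩⟩) = (i, decide (0 < g i)) := by
      show w (e.symm (e ⟨⟨i, hi⟩, ⟨0, h0⟩⟩)) = _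
      rw [Equiv.symm_apply_apply]
    have hall : ∀ k b, p.2 k = (i, b) → b = decide (0 < g i) := by
      intro k b hkb
      have h1 : ((e.symm k).1 : ι) = i := congrArg Prod.fst hkb
      have h2 : decide (0 < g (e.symm k).1) = b := congrArg Prod.snd hkb
      rw [← h2, h1]
    have hpos : ∀ b, b = decide (0 < g i) → 0 < Nat.card {j : Fin p.1 // p.2 j = (i, b)} := by
      intro b hb
      have : Nonempty {j : Fin p.1 // p.2 j = (i, b)} := ⟨⟨_, by rw [hb]; exact hk⟩⟩
      exact Nat.card_pos
    have hzero : ∀ b, b ≠ decide (0 < g i) → Nat.card {j : Fin p.1 // p.2 j = (i, b)} = 0 := by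
      intro b hb
      have : IsEmpty {j : Fin p.1 // p.2 j = (i, b)} := ⟨fun j => hb (hall j.1 b j.2)⟩
      exact Nat.card_of_isEmpty
    by_cases hp : 0 < g i
    · have e1 := hpos true (by simpa using hp)
      have e2 := hzero false (by simpa using hp)
      omega
    · have e1 := hpos false (by simpa using hp)
      have e2 := hzero true (by simpa using hp)
      omega

end Pool.Agent.N169.LI
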