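import Mathlib
import Pool.Agent.N576.MX3.D

set_option autoImplicit false

/-!
# The auxiliary polynomial by Siegel's lemma (project MX3 of helper576, leaf SIEG)

Worker: helper169.
-/

namespace Pool.Agent.N169.MX3

open Finset
open Pool.Agent.N576.MX3

attribute [local instance] Matrix.seminormedAddCommGroup

noncomputable section

theorem sum_Cu (L : ℕ) (f : ℕ × ℕ × ℕ → ℝ) :
    ∑ l ∈ Cu L, f l = ∑ i : Fin L × Fin L × Fin L, f (i.1, i.2.1, i.2.2) := by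
  unfold Cu
  rw [Finset.sum_product, Fintype.sum_prod_type, Finset.sum_range]
  refine Finset.sum_congr rfl fun i _ => ?_
  rw [Finset.sum_product, Fintype.sum_prod_type, Finset.sum_range]
  refine Finset.sum_congr rfl fun j _ => ?_
  rw [Finset.sum_range]

/-- one factor of the coefficient -/
def fc (a d : ℕ) (L x s : ℕ) : ℤ := (a : ℤ) ^ (x * s) * (d : ℤ) ^ ((L - x) * s)

theorem fc_bd {a d H : ℕ} (L x s S : ℕ) (ha : a ≤ H) (hd : d ≤ H) (hH : 1 ≤ H) (hx : x ≤ L)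
    (hs : s ≤ S) : |(fc a d L x s : ℝ)| ≤ (H : ℝ) ^ (L * S) := by
  unfold fc
  push_cast
  have ha' : (a : ℝ) ≤ H := by exact_mod_cast ha
  have hd' : (d : ℝ) ≤ H := by exact_mod_cast hd
  have hH' : (1 : ℝ) ≤ H := by exact_mod_cast hH
  rw [abs_of_nonneg (by positivity)]
  calc (a : ℝ) ^ (x * s) * (d : ℝ) ^ ((L - x) * s)
      ≤ (H : ℝ) ^ (x * s) * (H : ℝ) ^ ((L - x) * s) := by gcongr
    _ = (H : ℝ) ^ (L * s) := by
        rw [← pow_add, ← add_mul, Nat.add_sub_cancel' hx]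
    _ ≤ (H : ℝ) ^ (L * S) := pow_le_pow_right₀ hH' (Nat.mul_le_mul_left _ hs)

theorem fc_exp {a d : ℕ} (L x s : ℕ) (ha : 1 ≤ a) (hd : 1 ≤ d) (hx : x ≤ L) :
    (d : ℝ) ^ (L * s) * Real.exp ((s : ℝ) * ((x : ℝ) * Real.log ((a : ℝ) / d))) =
      (fc a d L x s : ℝ) := by
  have ha' : (0 : ℝ) < a := by exact_mod_cast ha
  have hd' : (0 : ℝ) < d := by exact_mod_cast hd
  have h1 : (s : ℝ) * ((x : ℝ) * Real.log ((a : ℝ) / d)) =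
      ((x * s : ℕ) : ℝ) * Real.log ((a : ℝ) / d) := by
    push_cast; ring
  rw [h1, Real.exp_nat_mul, Real.exp_log (div_pos ha' hd')]
  unfold fc
  push_cast
  have h2 : L * s = x * s + (L - x) * s := by
    rw [← add_mul, Nat.add_sub_cancel' hx]
  rw [h2, pow_add, div_pow]
  field_simp

theorem g_bd {b b' : ℤ} {H L x z : ℕ} (hb : |b| ≤ H) (hb' : |b'| ≤ H) (hx : x ≤ L) (hz : z ≤ L) :
    |((b * x - b' * z : ℤ) : ℝ)| ≤ 2 * H * L := by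
  have hb1 : |(b : ℝ)| ≤ H := by exact_mod_cast hb
  have hb2 : |(b' : ℝ)| ≤ H := by exact_mod_cast hb'
  have hx1 : (x : ℝ) ≤ L := by exact_mod_cast hx
  have hz1 : (z : ℝ) ≤ L := by exact_mod_cast hz
  push_cast
  calc |(b : ℝ) * x - b' * z| ≤ |(b : ℝ) * x| + |(b' : ℝ) * z| := abs_sub _ _
    _ = |(b : ℝ)| * x + |(b' : ℝ)| * z := by
        rw [abs_mul, abs_mul, Nat.abs_cast, Nat.abs_cast]
    _ ≤ H * L + H * L := by gcongr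
    _ = 2 * H * L := by ring

/-- the coefficient matrix -/
def MM (q : Q3) (L T S : ℕ) : Matrix (Fin T × Fin T × Fin S) (Fin L × Fin L × Fin L) ℤ :=
  fun r i => q.g1 (i.1, i.2.1, i.2.2) ^ (r.1 : ℕ) * q.g2 (i.1, i.2.1, i.2.2) ^ (r.2.1 : ℕ) *
    (fc q.a1 q.d1 L i.1 r.2.2 * fc q.a2 q.d2 L i.2.1 r.2.2 * fc q.a3 q.d3 L i.2.2 r.2.2)

theorem MM_bd (q : Q3) (H L T S : ℕ) (hq : q.Ok H) (hL : 1 ≤ L)
    (r : Fin T × Fin T × Fin S) (i : Fin L × Fin L × Fin L) :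
    |((MM q L T S r i : ℤ) : ℝ)| ≤ (2 * H * L) ^ (2 * T) * (H : ℝ) ^ (3 * L * S) := by
  have hH : 1 ≤ H := hq.a1.1.trans hq.a1.2
  have hH' : (1 : ℝ) ≤ H := by exact_mod_cast hH
  have hL' : (1 : ℝ) ≤ L := by exact_mod_cast hL
  have h2 : (1 : ℝ) ≤ 2 * H * L := by nlinarith
  have e1 : |((q.g1 (i.1, i.2.1, i.2.2) : ℤ) : ℝ)| ≤ 2 * H * L :=
    g_bd hq.b3 hq.b1 i.1.2.le i.2.2.2.le
  have e2 : |((q.g2 (i.1, i.2.1, i.2.2) : ℤ) : ℝ)| ≤ 2 * H * L :=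
    g_bd hq.b3 hq.b2 i.2.1.2.le i.2.2.2.le
  have f1 := fc_bd L i.1 r.2.2 S hq.a1.2 hq.d1.2 hH i.1.2.le r.2.2.2.le
  have f2 := fc_bd L i.2.1 r.2.2 S hq.a2.2 hq.d2.2 hH i.2.1.2.le r.2.2.2.le
  have f3 := fc_bd L i.2.2 r.2.2 S hq.a3.2 hq.d3.2 hH i.2.2.2.le r.2.2.2.le
  have p1 : |((q.g1 (i.1, i.2.1, i.2.2) : ℤ) : ℝ)| ^ (r.1 : ℕ) ≤ (2 * H * L) ^ T :=
    (pow_le_pow_left₀ (abs_nonneg _) e1 _).trans (pow_le_pow_right₀ h2 r.1.2.le)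
  have p2 : |((q.g2 (i.1, i.2.1, i.2.2) : ℤ) : ℝ)| ^ (r.2.1 : ℕ) ≤ (2 * H * L) ^ T :=
    (pow_le_pow_left₀ (abs_nonneg _) e2 _).trans (pow_le_pow_right₀ h2 r.2.1.2.le)
  unfold MM
  rw [Int.cast_mul, Int.cast_mul, Int.cast_pow, Int.cast_pow, Int.cast_mul, Int.cast_mul, abs_mul,
    abs_mul, abs_mul, abs_mul, abs_pow, abs_pow]
  calc _ ≤ ((2 * H * L : ℝ) ^ T * (2 * H * L) ^ T) *
      ((H : ℝ) ^ (L * S) * (H : ℝ) ^ (L * S) * (H : ℝ) ^ (L * S)) := by gcongr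
    _ = (2 * H * L) ^ (2 * T) * (H : ℝ) ^ (3 * L * S) := by
        rw [← pow_add, ← pow_add, ← pow_add]
        congr 2 <;> ring

theorem sieg : SIEG := by
  intro q H L T S hq hL hT hS hLT
  have hH : 1 ≤ H := hq.a1.1.trans hq.a1.2
  have hH' : (1 : ℝ) ≤ H := by exact_mod_cast hH
  have hL' : (1 : ℝ) ≤ L := by exact_mod_cast hL
  have h2 : (1 : ℝ) ≤ 2 * H * L := by nlinarith
  set A0 : ℝ := (2 * H * L) ^ (2 * T) * (H : ℝ) ^ (3 * L * S) with hA0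
  have hA01 : 1 ≤ A0 := one_le_mul_of_one_le_of_one_le (one_le_pow₀ h2) (one_le_pow₀ hH')
  have ca : Fintype.card (Fin T × Fin T × Fin S) = T ^ 2 * S := by
    rw [Fintype.card_prod, Fintype.card_prod, Fintype.card_fin, Fintype.card_fin]; ring
  have cb : Fintype.card (Fin L × Fin L × Fin L) = L ^ 3 := by
    rw [Fintype.card_prod, Fintype.card_prod, Fintype.card_fin]; ring
  have hpos : 0 < T ^ 2 * S := by positivity
  obtain ⟨t, ht0, ht1, ht2⟩ := Int.Matrix.exists_ne_zero_int_vec_norm_le (MM q L T S)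
    (by rw [ca, cb]; omega) (by rw [ca]; exact hpos)
  have hM : ‖MM q L T S‖ ≤ A0 := by
    rw [Matrix.norm_le_iff (by linarith)]
    intro r i
    rw [Int.norm_eq_abs]
    exact MM_bd q H L T S hq hL r i
  have htb : ‖t‖ ≤ (L : ℝ) ^ 3 * A0 := by
    refine ht2.trans ?_
    rw [ca, cb]
    have hbase : ((L ^ 3 : ℕ) : ℝ) * max 1 ‖MM q L T S‖ ≤ (L : ℝ) ^ 3 * A0 := by
      push_cast
      exact mul_le_mul_of_nonneg_left (max_le hA01 hM) (by positivity)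
    have hone : 1 ≤ ((L ^ 3 : ℕ) : ℝ) * max 1 ‖MM q L T S‖ := by
      push_cast
      exact one_le_mul_of_one_le_of_one_le (one_le_pow₀ hL') (le_max_left _ _)
    have hexp : ((T ^ 2 * S : ℕ) : ℝ) / (((L ^ 3 : ℕ) : ℝ) - ((T ^ 2 * S : ℕ) : ℝ)) ≤ 1 := by
      have h3 : 2 * ((T ^ 2 * S : ℕ) : ℝ) ≤ ((L ^ 3 : ℕ) : ℝ) := by exact_mod_cast hLT
      have h4 : 0 < ((T ^ 2 * S : ℕ) : ℝ) := by exact_mod_cast hpos
      rw [div_le_one (by linarith)]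
      linarith
    calc _ ≤ (((L ^ 3 : ℕ) : ℝ) * max 1 ‖MM q L T S‖) ^ (1 : ℝ) :=
          Real.rpow_le_rpow_of_exponent_le hone hexp
      _ = ((L ^ 3 : ℕ) : ℝ) * max 1 ‖MM q L T S‖ := Real.rpow_one _
      _ ≤ _ := hbase
  let p : ℕ × ℕ × ℕ → ℤ := fun l =>
    if h : l.1 < L ∧ l.2.1 < L ∧ l.2.2 < L then t (⟨l.1, h.1⟩, ⟨l.2.1, h.2.1⟩, ⟨l.2.2, h.2.2⟩) else 0
  have hp : ∀ i : Fin L × Fin L × Fin L, p (i.1, i.2.1, i.2.2) = t i := by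
    intro i
    have h : (i.1 : ℕ) < L ∧ (i.2.1 : ℕ) < L ∧ (i.2.2 : ℕ) < L := ⟨i.1.2, i.2.1.2, i.2.2.2⟩
    show (if h : (i.1 : ℕ) < L ∧ (i.2.1 : ℕ) < L ∧ (i.2.2 : ℕ) < L then
      t (⟨i.1, h.1⟩, ⟨i.2.1, h.2.1⟩, ⟨i.2.2, h.2.2⟩) else 0) = t i
    rw [dif_pos h]
  refine ⟨p, ?_, ?_, ?_⟩
  · obtain ⟨i, hi⟩ := Function.ne_iff.1 ht0
    refine ⟨(i.1, i.2.1, i.2.2), ?_, ?_⟩
    · unfold Cu
      simp [i.1.2, i.2.1.2, i.2.2.2]
    · rw [hp]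
      exact hi
  · intro l
    have hnn : 0 ≤ (L : ℝ) ^ 3 * A0 := by positivity
    have e : (L : ℝ) ^ 3 * (2 * H * L) ^ (2 * T) * (H : ℝ) ^ (3 * L * S) = (L : ℝ) ^ 3 * A0 := by
      rw [hA0, mul_assoc]
    rw [e]
    show |((if h : l.1 < L ∧ l.2.1 < L ∧ l.2.2 < L then
      t (⟨l.1, h.1⟩, ⟨l.2.1, h.2.1⟩, ⟨l.2.2, h.2.2⟩) else 0 : ℤ) : ℝ)| ≤ _
    split_ifs with h
    · rw [← Int.norm_eq_abs]
      exact (norm_le_pi_norm t _).trans htb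
    · simpa using hnn
  · intro m1 m2 s hm1 hm2 hs
    have key := congrFun ht1 (⟨m1, hm1⟩, ⟨m2, hm2⟩, ⟨s, hs⟩)
    have key2 : ∑ i : Fin L × Fin L × Fin L,
        ((MM q L T S (⟨m1, hm1⟩, ⟨m2, hm2⟩, ⟨s, hs⟩) i : ℤ) : ℝ) * (t i : ℝ) = 0 := by
      have : (∑ i : Fin L × Fin L × Fin L,
        MM q L T S (⟨m1, hm1⟩, ⟨m2, hm2⟩, ⟨s, hs⟩) i * t i) = 0 := key
      exact_mod_cast congrArg (Int.cast : ℤ → ℝ) this
    have hd1 : (0 : ℝ) < q.d1 := by exact_mod_cast hq.d1.1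
    have hd2 : (0 : ℝ) < q.d2 := by exact_mod_cast hq.d2.1
    have hd3 : (0 : ℝ) < q.d3 := by exact_mod_cast hq.d3.1
    have hD : (0 : ℝ) < (q.d1 : ℝ) ^ (L * s) * (q.d2 : ℝ) ^ (L * s) * (q.d3 : ℝ) ^ (L * s) := by
      positivity
    have key3 : ((q.d1 : ℝ) ^ (L * s) * (q.d2 : ℝ) ^ (L * s) * (q.d3 : ℝ) ^ (L * s)) *
        q.A L p m1 m2 s = 0 := by
      rw [← key2, Q3.A, sum_Cu, Finset.mul_sum]
      refine Finset.sum_congr rfl fun i _ => ?_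
      rw [hp]
      have f1 := fc_exp (a := q.a1) (d := q.d1) L i.1 s hq.a1.1 hq.d1.1 i.1.2.le
      have f2 := fc_exp (a := q.a2) (d := q.d2) L i.2.1 s hq.a2.1 hq.d2.1 i.2.1.2.le
      have f3 := fc_exp (a := q.a3) (d := q.d3) L i.2.2 s hq.a3.1 hq.d3.1 i.2.2.2.le
      have hE : Real.exp ((s : ℝ) * q.E (i.1, i.2.1, i.2.2)) =
          Real.exp ((s : ℝ) * (((i.1 : ℕ) : ℝ) * Real.log ((q.a1 : ℝ) / q.d1))) *
          Real.exp ((s : ℝ) * (((i.2.1 : ℕ) : ℝ) * Real.log ((q.a2 : ℝ) / q.d2))) *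
          Real.exp ((s : ℝ) * (((i.2.2 : ℕ) : ℝ) * Real.log ((q.a3 : ℝ) / q.d3))) := by
        rw [← Real.exp_add, ← Real.exp_add]
        congr 1
        simp only [Q3.E, Q3.l1, Q3.l2, Q3.l3]
        ring
      rw [hE]
      unfold MM
      push_cast
      rw [← f1, ← f2, ← f3]
      ring
    exact (mul_eq_zero.1 key3).resolve_left hD.ne'

end

end Pool.Agent.N169.MX3
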