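import Pool.Agent.N604.MW.Stm3
import Pool.Agent.N438.MW_Sum

/-!
# Project PD (helper604), task DMEAN: the mean value for almost every diagonal form
-/

set_option autoImplicit false

namespace Pool.Agent.N169.PD

open Finset MeasureTheory Filter Pool.Agent.N604.MW

/-- the tuples in `[X, 2X] ^ k` -/
abbrev Bx (k X : ℕ) : Finset (Fin k → ℕ) := Fintype.piFinset fun _ : Fin k => Finset.Icc X (2 * X)

/-- the set of a pair of tuples -/
def Sp (k : ℕ) (B : ℝ) (p : (Fin k → ℕ) × (Fin k → ℕ)) : Set (Fin k → ℝ) :=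
  {α | (∀ j, |α j| ≤ B) ∧ |∑ i, α i * (((p.1 i : ℝ)) ^ k - ((p.2 i : ℝ)) ^ k)| ≤ (k : ℝ)}

/-- the distance of two tuples -/
noncomputable def ff (k X : ℕ) (x y : Fin k → ℕ) : ℝ :=
  (X : ℝ) ^ (k - 1) * ∑ i, |(x i : ℝ) - (y i : ℝ)|

theorem ff_nonneg (k X : ℕ) (x y : Fin k → ℕ) : 0 ≤ ff k X x y :=
  mul_nonneg (by positivity) (sum_nonneg fun _ _ => abs_nonneg _)

theorem card_Bx (k X : ℕ) : (Bx k X).card = (X + 1) ^ k := by
  unfold Bx
  rw [Fintype.card_piFinset, prod_const, card_univ, Fintype.card_fin, Nat.card_Icc]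
  congr 1
  omega

theorem pow_diff {k X a b : ℕ} (hk : 1 ≤ k) (ha : X ≤ a) (hb : X ≤ b) :
    (X : ℝ) ^ (k - 1) * |(a : ℝ) - b| ≤ |(a : ℝ) ^ k - (b : ℝ) ^ k| := by
  obtain ⟨m, rfl⟩ : ∃ m, k = m + 1 := ⟨k - 1, by omega⟩
  rw [Nat.add_sub_cancel]
  have key : ∀ a b : ℝ, (X : ℝ) ≤ a → (X : ℝ) ≤ b → b ≤ a →
      (X : ℝ) ^ m * (a - b) ≤ a ^ (m + 1) - b ^ (m + 1) := by
    intro a b ha hb hba
    have hX : (0 : ℝ) ≤ X := Nat.cast_nonneg X
    have h1 : (X : ℝ) ^ m ≤ a ^ m := pow_le_pow_left₀ hX ha m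
    have h2 : b ^ m ≤ a ^ m := pow_le_pow_left₀ (hX.trans hb) hba m
    have h3 : (X : ℝ) ^ m * (a - b) ≤ a ^ m * (a - b) :=
      mul_le_mul_of_nonneg_right h1 (by linarith)
    have h4 : b ^ m * b ≤ a ^ m * b := mul_le_mul_of_nonneg_right h2 (hX.trans hb)
    rw [pow_succ, pow_succ]
    linarith
  have ha' : (X : ℝ) ≤ a := by exact_mod_cast ha
  have hb' : (X : ℝ) ≤ b := by exact_mod_cast hb
  rcases le_total (b : ℝ) a with h | h
  · rw [abs_of_nonneg (sub_nonneg.2 h)]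
    exact (key a b ha' hb' h).trans (le_abs_self _)
  · rw [abs_sub_comm, abs_of_nonneg (sub_nonneg.2 h), abs_sub_comm]
    exact (key b a hb' ha' h).trans (le_abs_self _)

theorem vol_le (h : S_SLAB) (k : ℕ) (B : ℝ) (hk : 1 ≤ k) (hB : 0 < B) :
    ∃ C1 : ℝ, 0 < C1 ∧ ∀ (X : ℕ), 1 ≤ X → ∀ x ∈ Bx k X, ∀ y ∈ Bx k X,
      volume (Sp k B (x, y)) ≤ ENNReal.ofReal (C1 / (1 + ff k X x y)) := by
  obtain ⟨C, hC, hs⟩ := h k B hB
  have hkR : (1 : ℝ) ≤ k := by exact_mod_cast hk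
  refine ⟨(2 * B) ^ k + 2 * C * k * k, by positivity, fun X hX x hx y hy => ?_⟩
  have hX1 : (1 : ℝ) ≤ X := by exact_mod_cast hX
  by_cases hxy : x = y
  · subst hxy
    have h0 : ff k X x x = 0 := by simp [ff]
    have h7 : volume (Sp k B (x, x)) ≤ volume (Metric.closedBall (0 : Fin k → ℝ) B) := by
      refine measure_mono fun θ hθ => ?_
      rw [mem_closedBall_zero_iff, pi_norm_le_iff_of_nonneg hB.le]
      exact hθ.1
    refine h7.trans ?_
    rw [Real.volume_pi_closedBall _ hB.le, Fintype.card_fin, h0, add_zero, div_one]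
    refine ENNReal.ofReal_le_ofReal ?_
    have : 0 ≤ 2 * C * k * k := by positivity
    linarith
  · obtain ⟨j1, hj1⟩ := Function.ne_iff.1 hxy
    have : Nonempty (Fin k) := ⟨j1⟩
    obtain ⟨j0, hj0⟩ := Finite.exists_max fun j : Fin k => |(x j : ℝ) - (y j : ℝ)|
    obtain ⟨δ, hδ⟩ : ∃ δ : ℝ, δ = |(x j0 : ℝ) - (y j0 : ℝ)| := ⟨_, rfl⟩
    have hδ1 : 1 ≤ δ := by
      have h1 : (1 : ℝ) ≤ |(x j1 : ℝ) - (y j1 : ℝ)| := by
        have h2 : ((x j1 : ℤ) - (y j1 : ℤ)) ≠ 0 := by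
          intro h3
          exact hj1 (by exact_mod_cast sub_eq_zero.1 h3)
        have h4 := Int.one_le_abs h2
        have h5 : ((1 : ℤ) : ℝ) ≤ ((|(x j1 : ℤ) - (y j1 : ℤ)| : ℤ) : ℝ) := by exact_mod_cast h4
        push_cast at h5
        exact h5
      rw [hδ]
      exact h1.trans (hj0 j1)
    obtain ⟨P, hP⟩ : ∃ P : ℝ, P = (X : ℝ) ^ (k - 1) := ⟨_, rfl⟩
    have hP1 : 1 ≤ P := by
      rw [hP]
      exact one_le_pow₀ hX1
    have hH1 : 1 ≤ P * δ := one_le_mul_of_one_le_of_one_le hP1 hδ1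
    have hxX : X ≤ x j0 := (Finset.mem_Icc.1 (Fintype.mem_piFinset.1 hx j0)).1
    have hyX : X ≤ y j0 := (Finset.mem_Icc.1 (Fintype.mem_piFinset.1 hy j0)).1
    have hsl := hs (fun j => (x j : ℝ) ^ k - (y j : ℝ) ^ k) 0 k (P * δ) (by positivity)
      (by linarith) ⟨j0, by
        rw [hP, hδ]
        exact pow_diff hk hxX hyX⟩
    refine (measure_mono ?_).trans (hsl.trans (ENNReal.ofReal_le_ofReal ?_))
    · intro θ hθ
      refine ⟨hθ.1, ?_⟩
      rw [add_zero]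
      exact hθ.2
    · have hf : ff k X x y ≤ k * (P * δ) := by
        unfold ff
        rw [← hP]
        have h4 : ∑ i, |(x i : ℝ) - (y i : ℝ)| ≤ (Finset.univ : Finset (Fin k)).card • δ :=
          sum_le_card_nsmul _ _ _ fun i _ => by
            rw [hδ]
            exact hj0 i
        rw [card_univ, Fintype.card_fin, nsmul_eq_mul] at h4
        calc P * ∑ i, |(x i : ℝ) - (y i : ℝ)| ≤ P * (k * δ) :=
              mul_le_mul_of_nonneg_left h4 (by linarith)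
          _ = k * (P * δ) := by ring
      have h0 := ff_nonneg k X x y
      rw [div_le_div_iff₀ (by linarith) (by linarith)]
      have h5 : 1 + ff k X x y ≤ 2 * k * (P * δ) := by nlinarith
      have h6 : 0 ≤ (2 * B) ^ k * (P * δ) := by positivity
      calc C * k * (1 + ff k X x y) ≤ C * k * (2 * k * (P * δ)) := by gcongr
        _ ≤ ((2 * B) ^ k + 2 * C * k * k) * (P * δ) := by nlinarith

theorem count (k X : ℕ) (hk : 1 ≤ k) (hX : 1 ≤ X) (x : Fin k → ℕ) (t : ℝ) (ht : 1 ≤ t)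
    (R : Finset (Fin k → ℕ)) (hR : R ⊆ Bx k X) (hf : ∀ y ∈ R, ff k X x y ≤ t) :
    (R.card : ℝ) ≤ 3 ^ k * t := by
  have hX1 : (1 : ℝ) ≤ X := by exact_mod_cast hX
  obtain ⟨P, hP⟩ : ∃ P : ℝ, P = (X : ℝ) ^ (k - 1) := ⟨_, rfl⟩
  have hP1 : 1 ≤ P := by
    rw [hP]
    exact one_le_pow₀ hX1
  obtain ⟨u, hu⟩ : ∃ u : ℝ, u = t / P := ⟨_, rfl⟩
  have hu0 : 0 < u := by
    rw [hu]
    positivity
  have htu : t = P * u := by
    rw [hu]
    field_simp
  have hsub : R ⊆ Fintype.piFinset fun i : Fin k => Finset.Icc (x i - ⌊u⌋₊) (x i + ⌊u⌋₊) := by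
    intro y hy
    rw [Fintype.mem_piFinset]
    intro i
    have h1 := hf y hy
    unfold ff at h1
    rw [← hP, htu] at h1
    have h2 : ∑ i, |(x i : ℝ) - (y i : ℝ)| ≤ u := le_of_mul_le_mul_left h1 (by linarith)
    have h3 : |(x i : ℝ) - (y i : ℝ)| ≤ u :=
      (single_le_sum (f := fun i => |(x i : ℝ) - (y i : ℝ)|) (fun _ _ => abs_nonneg _)
        (mem_univ i)).trans h2
    rw [abs_le] at h3
    rw [Finset.mem_Icc]
    constructor
    · rw [Nat.sub_le_iff_le_add]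
      rcases le_total (x i) (y i) with h4 | h4
      · omega
      · have h5 : ((x i - y i : ℕ) : ℝ) ≤ u := by
          rw [Nat.cast_sub h4]
          linarith
        have h6 := Nat.le_floor h5
        omega
    · rcases le_total (y i) (x i) with h4 | h4
      · omega
      · have h5 : ((y i - x i : ℕ) : ℝ) ≤ u := by
          rw [Nat.cast_sub h4]
          linarith
        have h6 := Nat.le_floor h5
        omega
  have hc1 : (R.card : ℝ) ≤ (2 * (⌊u⌋₊ : ℝ) + 1) ^ k := by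
    have h1 := Finset.card_le_card hsub
    rw [Fintype.card_piFinset] at h1
    have h2 : ∏ i : Fin k, (Finset.Icc (x i - ⌊u⌋₊) (x i + ⌊u⌋₊)).card ≤ (2 * ⌊u⌋₊ + 1) ^ k := by
      have h3 : ∏ i : Fin k, (Finset.Icc (x i - ⌊u⌋₊) (x i + ⌊u⌋₊)).card ≤
          ∏ _i : Fin k, (2 * ⌊u⌋₊ + 1) := by
        refine Finset.prod_le_prod' fun i _ => ?_
        rw [Nat.card_Icc]
        omega
      rwa [prod_const, card_univ, Fintype.card_fin] at h3
    have h3 := h1.trans h2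
    exact_mod_cast h3
  rcases lt_or_ge u 1 with h1 | h1
  · have h2 : ⌊u⌋₊ = 0 := Nat.floor_eq_zero.2 h1
    rw [h2] at hc1
    have h3 : (R.card : ℝ) ≤ 1 := by simpa using hc1
    have h4 : (1 : ℝ) ≤ 3 ^ k := one_le_pow₀ (by norm_num)
    nlinarith
  · have h2 : (⌊u⌋₊ : ℝ) ≤ u := Nat.floor_le hu0.le
    have h3 : (R.card : ℝ) ≤ (3 * u) ^ k :=
      hc1.trans (pow_le_pow_left₀ (by positivity) (by linarith) k)
    have h4 : (R.card : ℝ) ≤ (3 * (X : ℝ)) ^ k := by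
      have h5 := Finset.card_le_card hR
      rw [card_Bx] at h5
      have h6 : (R.card : ℝ) ≤ ((X : ℝ) + 1) ^ k := by exact_mod_cast h5
      exact h6.trans (pow_le_pow_left₀ (by positivity) (by linarith) k)
    obtain ⟨m, rfl⟩ : ∃ m, k = m + 1 := ⟨k - 1, by omega⟩
    rw [Nat.add_sub_cancel] at hP
    rw [htu, hP]
    rcases le_total u X with h5 | h5
    · refine h3.trans ?_
      rw [mul_pow, pow_succ u]
      have h6 : u ^ m ≤ (X : ℝ) ^ m := pow_le_pow_left₀ hu0.le h5 m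
      have h7 : u ^ m * u ≤ (X : ℝ) ^ m * u := mul_le_mul_of_nonneg_right h6 hu0.le
      exact mul_le_mul_of_nonneg_left h7 (by positivity)
    · refine h4.trans ?_
      rw [mul_pow, pow_succ (X : ℝ)]
      have h7 : (X : ℝ) ^ m * X ≤ (X : ℝ) ^ m * u := mul_le_mul_of_nonneg_left h5 (by positivity)
      exact mul_le_mul_of_nonneg_left h7 (by positivity)

/-- the first moment of the number of pairs -/
theorem sum (h : S_SLAB) (k : ℕ) (B : ℝ) (hk : 1 ≤ k) (hB : 0 < B) : ∃ C : ℝ, 0 < C ∧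
    ∀ X : ℕ, 1 ≤ X → ∑ p ∈ Bx k X ×ˢ Bx k X, volume (Sp k B p) ≤
      ENNReal.ofReal (C * (X : ℝ) ^ k * (1 + Real.log X)) := by
  obtain ⟨C1, hC1, hv⟩ := vol_le h k B hk hB
  have hl2 : 0 < Real.log 2 := Real.log_pos one_lt_two
  have hlk : 0 ≤ Real.log (1 + k) := Real.log_nonneg (by
    have : (0 : ℝ) ≤ k := Nat.cast_nonneg k
    linarith)
  obtain ⟨C7, hC7⟩ : ∃ C7 : ℝ, C7 = 1 + (Real.log (1 + k) + k) / Real.log 2 := ⟨_, rfl⟩
  have hC7p : 0 < C7 := by
    rw [hC7]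
    positivity
  refine ⟨2 ^ k * (C1 * (2 * 3 ^ k * C7)), by positivity, fun X hX => ?_⟩
  have hX1 : (1 : ℝ) ≤ X := by exact_mod_cast hX
  have hlX : 0 ≤ Real.log X := Real.log_nonneg hX1
  have hin : ∀ x ∈ Bx k X, ∑ y ∈ Bx k X, 1 / (1 + ff k X x y) ≤
      2 * 3 ^ k * (C7 * (1 + Real.log X)) := by
    intro x hx
    have hXk : (1 : ℝ) ≤ (X : ℝ) ^ k := one_le_pow₀ hX1
    have hT1 : 1 ≤ (1 + (k : ℝ)) * (X : ℝ) ^ k := by
      have : (0 : ℝ) ≤ k := Nat.cast_nonneg k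
      nlinarith
    refine (Pool.Agent.N438.MW.dyadic (Bx k X) (ff k X x) (3 ^ k) ((1 + (k : ℝ)) * (X : ℝ) ^ k)
      (fun y _ => ff_nonneg k X x y) (by positivity) hT1 ?_ ?_).trans ?_
    · intro y hy
      have h1 : ∀ i, |(x i : ℝ) - (y i : ℝ)| ≤ X := by
        intro i
        have h2 := Finset.mem_Icc.1 (Fintype.mem_piFinset.1 hx i)
        have h3 := Finset.mem_Icc.1 (Fintype.mem_piFinset.1 hy i)
        have a1 : (X : ℝ) ≤ x i := by exact_mod_cast h2.1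
        have a2 : (x i : ℝ) ≤ 2 * X := by exact_mod_cast h2.2
        have a3 : (X : ℝ) ≤ y i := by exact_mod_cast h3.1
        have a4 : (y i : ℝ) ≤ 2 * X := by exact_mod_cast h3.2
        rw [abs_le]
        constructor <;> linarith
      have h4 : ∑ i, |(x i : ℝ) - (y i : ℝ)| ≤ (Finset.univ : Finset (Fin k)).card • (X : ℝ) :=
        sum_le_card_nsmul _ _ _ fun i _ => h1 i
      rw [card_univ, Fintype.card_fin, nsmul_eq_mul] at h4
      have h5 : ff k X x y ≤ k * (X : ℝ) ^ k := by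
        unfold ff
        have e : (X : ℝ) ^ k = (X : ℝ) ^ (k - 1) * X := by
          rw [← pow_succ]
          congr 1
          omega
        rw [e]
        calc (X : ℝ) ^ (k - 1) * ∑ i, |(x i : ℝ) - (y i : ℝ)| ≤ (X : ℝ) ^ (k - 1) * (k * X) :=
              mul_le_mul_of_nonneg_left h4 (by positivity)
          _ = k * ((X : ℝ) ^ (k - 1) * X) := by ring
      linarith
    · intro t ht R hR hf
      exact count k X hk hX x t ht R hR hf
    · refine mul_le_mul_of_nonneg_left ?_ (by positivity)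
      rw [Real.log_mul (by positivity) (by positivity), Real.log_pow, hC7]
      have h3 : (Real.log (1 + k) + k * Real.log X) / Real.log 2 ≤
          (Real.log (1 + k) + k) / Real.log 2 * (1 + Real.log X) := by
        rw [div_mul_eq_mul_div]
        refine div_le_div_of_nonneg_right ?_ hl2.le
        have : 0 ≤ Real.log (1 + k) * Real.log X := by positivity
        have : (0 : ℝ) ≤ k := by positivity
        linarith
      linarith
  rw [sum_product]
  calc ∑ x ∈ Bx k X, ∑ y ∈ Bx k X, volume (Sp k B (x, y)) ≤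
        ∑ x ∈ Bx k X, ∑ y ∈ Bx k X, ENNReal.ofReal (C1 / (1 + ff k X x y)) :=
        sum_le_sum fun x hx => sum_le_sum fun y hy => hv X hX x hx y hy
    _ = ENNReal.ofReal (∑ x ∈ Bx k X, ∑ y ∈ Bx k X, C1 / (1 + ff k X x y)) := by
        rw [ENNReal.ofReal_sum_of_nonneg]
        · refine sum_congr rfl fun x _ => ?_
          rw [ENNReal.ofReal_sum_of_nonneg]
          intro y _
          have := ff_nonneg k X x y
          positivity
        · intro x _
          refine sum_nonneg fun y _ => ?_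
          have := ff_nonneg k X x y
          positivity
    _ ≤ _ := by
        refine ENNReal.ofReal_le_ofReal ?_
        have h3 : ∀ x ∈ Bx k X, ∑ y ∈ Bx k X, C1 / (1 + ff k X x y) ≤
            C1 * (2 * 3 ^ k * (C7 * (1 + Real.log X))) := by
          intro x hx
          have h4 : ∑ y ∈ Bx k X, C1 / (1 + ff k X x y) =
              C1 * ∑ y ∈ Bx k X, 1 / (1 + ff k X x y) := by
            rw [mul_sum]
            exact sum_congr rfl fun m _ => by rw [mul_one_div]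
          rw [h4]
          exact mul_le_mul_of_nonneg_left (hin x hx) hC1.le
        have h4 := sum_le_card_nsmul _ _ _ h3
        rw [card_Bx, nsmul_eq_mul] at h4
        push_cast at h4
        refine h4.trans ?_
        have h5 : ((X : ℝ) + 1) ^ k ≤ 2 ^ k * (X : ℝ) ^ k := by
          rw [← mul_pow]
          exact pow_le_pow_left₀ (by positivity) (by linarith) _
        calc ((X : ℝ) + 1) ^ k * (C1 * (2 * 3 ^ k * (C7 * (1 + Real.log X)))) ≤
              2 ^ k * (X : ℝ) ^ k * (C1 * (2 * 3 ^ k * (C7 * (1 + Real.log X)))) := by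
              gcongr
          _ = _ := by ring

/-! ### Borel-Cantelli -/

lemma measurable_Sp (k : ℕ) (B : ℝ) (p : (Fin k → ℕ) × (Fin k → ℕ)) :
    MeasurableSet (Sp k B p) := by
  have h1 : IsClosed {θ : Fin k → ℝ | ∀ j, |θ j| ≤ B} := by
    simp only [Set.ofPred_forall]
    exact isClosed_iInter fun j => isClosed_le (by fun_prop) continuous_const
  have h2 : IsClosed {α : Fin k → ℝ |
      |∑ i, α i * (((p.1 i : ℝ)) ^ k - ((p.2 i : ℝ)) ^ k)| ≤ (k : ℝ)} := by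
    refine isClosed_le ?_ continuous_const
    fun_prop
  exact (h1.inter h2).measurableSet

open Classical in
lemma card_eq (k : ℕ) (B : ℝ) (X : ℕ) (θ : Fin k → ℝ) (hθ : ∀ j, |θ j| ≤ B) :
    ((DPairs k θ X).card : ENNReal) =
      ∑ p ∈ Bx k X ×ˢ Bx k X, (Sp k B p).indicator (1 : (Fin k → ℝ) → ENNReal) θ := by
  unfold DPairs
  rw [card_filter, Nat.cast_sum]
  refine sum_congr rfl fun p _ => ?_
  by_cases hp : |∑ i, θ i * (((p.1 i : ℝ)) ^ k - ((p.2 i : ℝ)) ^ k)| ≤ (k : ℝ)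
  · rw [if_pos hp, Set.indicator_of_mem (show θ ∈ Sp k B p from ⟨hθ, hp⟩)]
    simp
  · rw [if_neg hp, Set.indicator_of_notMem (show θ ∉ Sp k B p from fun h => hp h.2)]
    simp

lemma lintegral_eq (k : ℕ) (B : ℝ) (X : ℕ) :
    ∫⁻ θ : Fin k → ℝ, ∑ p ∈ Bx k X ×ˢ Bx k X,
        (Sp k B p).indicator (1 : (Fin k → ℝ) → ENNReal) θ =
      ∑ p ∈ Bx k X ×ˢ Bx k X, volume (Sp k B p) := by
  rw [lintegral_finsetSum]
  · refine sum_congr rfl fun p _ => ?_
    rw [lintegral_indicator_one (measurable_Sp k B p)]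
  · intro p _
    exact measurable_one.indicator (measurable_Sp k B p)

/-- the exceptional set -/
def Ex (k : ℕ) (B : ℝ) (r : ℕ) (ν : ℕ) : Set (Fin k → ℝ) :=
  {θ | (∀ j, |θ j| ≤ B) ∧
    ((2 : ℝ) ^ ν) ^ ((k : ℝ) + 1 / (r : ℝ)) < ((DPairs k θ (2 ^ ν)).card : ℝ)}

lemma vol_Ex (k : ℕ) (B C : ℝ) (r : ℕ)
    (h : ∀ X : ℕ, 1 ≤ X → ∑ p ∈ Bx k X ×ˢ Bx k X, volume (Sp k B p) ≤
      ENNReal.ofReal (C * (X : ℝ) ^ k * (1 + Real.log X))) (ν : ℕ) :
    volume (Ex k B r ν) ≤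
      ENNReal.ofReal (C * (1 + ν * Real.log 2) * ((2 : ℝ) ^ (-(1 / (r : ℝ)))) ^ ν) := by
  set X : ℕ := 2 ^ ν with hX
  have hXR : (X : ℝ) = (2 : ℝ) ^ ν := by rw [hX]; push_cast; rfl
  have hXpos : (0 : ℝ) < (2 : ℝ) ^ ν := by positivity
  set T : ℝ := ((2 : ℝ) ^ ν) ^ ((k : ℝ) + 1 / (r : ℝ)) with hT
  have hTpos : 0 < T := Real.rpow_pos_of_pos hXpos _
  have hsub : Ex k B r ν ⊆ {θ : Fin k → ℝ | ENNReal.ofReal T ≤
      ∑ p ∈ Bx k X ×ˢ Bx k X, (Sp k B p).indicator (1 : (Fin k → ℝ) → ENNReal) θ} := by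
    rintro θ ⟨h1, h2⟩
    simp only [Set.mem_ofPred_eq]
    rw [← card_eq k B X θ h1]
    have e : (((DPairs k θ X).card : ℕ) : ENNReal) =
        ENNReal.ofReal ((DPairs k θ X).card : ℝ) := by
      rw [ENNReal.ofReal_natCast]
    rw [e]
    exact ENNReal.ofReal_le_ofReal h2.le
  have hmeas : Measurable fun θ : Fin k → ℝ =>
      ∑ p ∈ Bx k X ×ˢ Bx k X, (Sp k B p).indicator (1 : (Fin k → ℝ) → ENNReal) θ :=
    Finset.measurable_fun_sum _ fun p _ => measurable_one.indicator (measurable_Sp k B p)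
  have h3 := meas_ge_le_lintegral_div (μ := (volume : Measure (Fin k → ℝ))) hmeas.aemeasurable
    (ε := ENNReal.ofReal T) (by simpa using hTpos) ENNReal.ofReal_ne_top
  rw [lintegral_eq] at h3
  refine (measure_mono hsub).trans (h3.trans ?_)
  have h4 := h X Nat.one_le_two_pow
  calc (∑ p ∈ Bx k X ×ˢ Bx k X, volume (Sp k B p)) / ENNReal.ofReal T
      ≤ ENNReal.ofReal (C * (X : ℝ) ^ k * (1 + Real.log X)) / ENNReal.ofReal T :=
        ENNReal.div_le_div_right h4 _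
    _ = ENNReal.ofReal (C * (X : ℝ) ^ k * (1 + Real.log X) / T) := by
        rw [ENNReal.ofReal_div_of_pos hTpos]
    _ = _ := by
        congr 1
        have e1 : Real.log X = ν * Real.log 2 := by rw [hXR, Real.log_pow]
        have e2 : T = ((2 : ℝ) ^ ν) ^ k * ((2 : ℝ) ^ ν) ^ (1 / (r : ℝ)) := by
          rw [hT, Real.rpow_add hXpos]
          congr 1
          exact Real.rpow_natCast ((2 : ℝ) ^ ν) k
        have e3 : ((2 : ℝ) ^ (-(1 / (r : ℝ)))) ^ ν = (((2 : ℝ) ^ ν) ^ (1 / (r : ℝ)))⁻¹ := by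
          rw [← Real.rpow_natCast, ← Real.rpow_natCast, ← Real.rpow_mul (by norm_num),
            ← Real.rpow_mul (by norm_num), ← Real.rpow_neg (by norm_num)]
          congr 1
          ring
        rw [e1, e3, e2, hXR]
        have h5 : ((2 : ℝ) ^ ν) ^ (1 / (r : ℝ)) ≠ 0 := (Real.rpow_pos_of_pos hXpos _).ne'
        field_simp

lemma summable_aux (C q : ℝ) (hq0 : 0 ≤ q) (hq : q < 1) :
    Summable fun ν : ℕ => C * (1 + ν * Real.log 2) * q ^ ν := by
  have h1 : Summable fun ν : ℕ => q ^ ν := summable_geometric_of_lt_one hq0 hq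
  have h2 : Summable fun ν : ℕ => (ν : ℝ) ^ 1 * q ^ ν :=
    summable_pow_mul_geometric_of_norm_lt_one 1 (by rwa [Real.norm_of_nonneg hq0])
  have h3 := (h1.mul_left C).add (h2.mul_left (C * Real.log 2))
  refine h3.congr fun ν => ?_
  ring

theorem dmean (h : S_SLAB) : S_DMEAN := by
  intro k hk
  have key : ∀ B r : ℕ, ∀ᵐ θ : Fin k → ℝ, ∀ᶠ ν : ℕ in atTop, θ ∉ Ex k (B + 1 : ℝ) (r + 1) ν := by
    intro B r
    obtain ⟨C, hC, hs⟩ := sum h k (B + 1) (by omega) (by positivity)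
    apply ae_eventually_notMem
    have h1 : ∀ ν, volume (Ex k (B + 1 : ℝ) (r + 1) ν) ≤
        ENNReal.ofReal (C * (1 + ν * Real.log 2) * ((2 : ℝ) ^ (-(1 / ((r + 1 : ℕ) : ℝ)))) ^ ν) :=
      fun ν => vol_Ex k (B + 1) C (r + 1) hs ν
    have hq : (2 : ℝ) ^ (-(1 / ((r + 1 : ℕ) : ℝ))) < 1 := by
      apply Real.rpow_lt_one_of_one_lt_of_neg (by norm_num)
      have : (0 : ℝ) < 1 / ((r + 1 : ℕ) : ℝ) := by positivity
      linarith
    have h2 := (summable_aux C _ (by positivity) hq).tsum_ofReal_ne_top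
    exact ne_top_of_le_ne_top h2 (ENNReal.tsum_le_tsum h1)
  have key2 : ∀ᵐ θ : Fin k → ℝ, ∀ B r : ℕ, ∀ᶠ ν : ℕ in atTop,
      θ ∉ Ex k (B + 1 : ℝ) (r + 1) ν := by
    rw [ae_all_iff]
    intro B
    rw [ae_all_iff]
    exact key B
  filter_upwards [key2] with θ hθ ε hε
  obtain ⟨B, hB⟩ : ∃ B : ℕ, ∀ j, |θ j| ≤ B := by
    obtain ⟨B, hB⟩ := exists_nat_ge (∑ j, |θ j|)
    exact ⟨B, fun j => (single_le_sum (fun i _ => abs_nonneg (θ i)) (mem_univ j)).trans hB⟩
  obtain ⟨r, hr⟩ := exists_nat_one_div_lt hε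
  obtain ⟨ν0, h0⟩ := eventually_atTop.1 (hθ B r)
  refine ⟨ν0, fun ν hν => ?_⟩
  have h1 := h0 ν hν
  simp only [Ex, Set.mem_ofPred_eq, not_and, not_lt] at h1
  have h2 := h1 (fun j => (hB j).trans (by linarith))
  refine h2.trans ?_
  apply Real.rpow_le_rpow_of_exponent_le (one_le_pow₀ (by norm_num))
  push_cast
  linarith

end Pool.Agent.N169.PD
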