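import Pool.Agent.N657.QR.Stm

/-!
Project QR (helper657), BAS (helper169): elementary facts about the energy form of quantum rotors.
-/

set_option autoImplicit false
set_option linter.unusedSectionVars false

namespace Pool.Agent.N169.QR_BAS

open Filter Topology Pool.Agent.N657.QR

variable {V : Type} [Fintype V] [DecidableEq V]

/-! ### hops -/

theorem hp_inv (x y : V) (n : V → ℤ) : hp x y (hp y x n) = n := by
  unfold hp
  abel

theorem hp_self (x : V) (n : V → ℤ) : hp x x n = n := by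
  unfold hp
  abel

/-- the hop as a bijection -/
def hpE (x y : V) : (V → ℤ) ≃ (V → ℤ) where
  toFun := hp x y
  invFun := hp y x
  left_inv := fun n => hp_inv y x n
  right_inv := fun n => hp_inv x y n

theorem hpE_apply (x y : V) (n : V → ℤ) : hpE x y n = hp x y n := rfl

theorem crcomm (x y : V) (ψ : (V → ℤ) → ℝ) : cr x y ψ = cr y x ψ := by
  unfold cr
  rw [← Equiv.tsum_eq (hpE x y) (fun n => ψ (hp y x n) * ψ n)]
  refine tsum_congr fun n => ?_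
  rw [hpE_apply, hp_inv, mul_comm]

theorem crself (x : V) (ψ : (V → ℤ) → ℝ) : cr x x ψ = nr ψ := by
  unfold cr nr
  refine tsum_congr fun n => ?_
  rw [hp_self, pow_two]

/-- general: the product of a square summable function and its translate by a bijection -/
theorem gen_sum (e : (V → ℤ) ≃ (V → ℤ)) (ψ : (V → ℤ) → ℝ) (h : Summable (fun n => ψ n ^ 2)) :
    Summable (fun n => ψ (e n) * ψ n) ∧ |∑' n, ψ (e n) * ψ n| ≤ nr ψ := by
  have h1 : Summable (fun n => ψ (e n) ^ 2) := (Equiv.summable_iff e).2 h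
  have h2 : Summable (fun n => (ψ (e n) ^ 2 + ψ n ^ 2) / 2) := (h1.add h).div_const 2
  have hb : ∀ n, ‖ψ (e n) * ψ n‖ ≤ (ψ (e n) ^ 2 + ψ n ^ 2) / 2 := by
    intro n
    rw [Real.norm_eq_abs, abs_mul]
    nlinarith [sq_nonneg (|ψ (e n)| - |ψ n|), sq_abs (ψ (e n)), sq_abs (ψ n)]
  have h3 : Summable (fun n => ψ (e n) * ψ n) := Summable.of_norm_bounded h2 hb
  refine ⟨h3, ?_⟩
  calc |∑' n, ψ (e n) * ψ n| = ‖∑' n, ψ (e n) * ψ n‖ := (Real.norm_eq_abs _).symm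
    _ ≤ ∑' n, (ψ (e n) ^ 2 + ψ n ^ 2) / 2 := tsum_of_norm_bounded h2.hasSum hb
    _ = nr ψ := by
        rw [tsum_div_const, h1.tsum_add h, Equiv.tsum_eq e (fun n => ψ n ^ 2)]
        unfold nr
        ring

theorem crsum (x y : V) (ψ : (V → ℤ) → ℝ) (h : Summable (fun n => ψ n ^ 2)) :
    Summable (fun n => ψ (hp x y n) * ψ n) := (gen_sum (hpE x y) ψ h).1

theorem crle (x y : V) (ψ : (V → ℤ) → ℝ) (h : Summable (fun n => ψ n ^ 2)) :
    |cr x y ψ| ≤ nr ψ := (gen_sum (hpE x y) ψ h).2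

theorem xxsum (x : V) (ψ : (V → ℤ) → ℝ) (h : Summable (fun n => ψ n ^ 2)) :
    Summable (fun n => ψ (n + dl x) * ψ n) := (gen_sum (Equiv.addRight (dl x)) ψ h).1

theorem xxle (x : V) (ψ : (V → ℤ) → ℝ) (h : Summable (fun n => ψ n ^ 2)) :
    |xx x ψ| ≤ nr ψ := (gen_sum (Equiv.addRight (dl x)) ψ h).2

/-! ### quadratic forms -/

/-- the quadratic form of the matrix `K` -/
def Q (K : Matrix V V ℝ) (v : V → ℝ) : ℝ := ∑ x, ∑ y, K x y * (v x * v y)

theorem pot_eq (K : Matrix V V ℝ) (ν : V → ℝ) (n : V → ℤ) :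
    pot K ν n = Q K (fun x => (n x : ℝ) - ν x) := rfl

theorem Q_eq (K : Matrix V V ℝ) (v : V → ℝ) :
    Q K v = star v ⬝ᵥ (Matrix.mulVec K v) := by
  unfold Q
  simp only [dotProduct, Matrix.mulVec, Pi.star_apply, star_trivial, Finset.mul_sum]
  refine Finset.sum_congr rfl fun x _ => Finset.sum_congr rfl fun y _ => ?_
  ring

theorem Q_nonneg {K : Matrix V V ℝ} (hK : K.PosSemidef) (v : V → ℝ) : 0 ≤ Q K v := by
  rw [Q_eq]
  exact hK.dotProduct_mulVec_nonneg v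

theorem Q_pos {K : Matrix V V ℝ} (hK : K.PosDef) {v : V → ℝ} (hv : v ≠ 0) : 0 < Q K v := by
  rw [Q_eq]
  exact hK.dotProduct_mulVec_pos hv

theorem Q_smul (K : Matrix V V ℝ) (t : ℝ) (v : V → ℝ) :
    Q K (fun x => t * v x) = t ^ 2 * Q K v := by
  unfold Q
  rw [Finset.mul_sum]
  refine Finset.sum_congr rfl fun x _ => ?_
  rw [Finset.mul_sum]
  refine Finset.sum_congr rfl fun y _ => ?_
  ring

theorem Q_cont (K : Matrix V V ℝ) : Continuous (fun v : V → ℝ => Q K v) := by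
  unfold Q
  fun_prop

theorem potnn (K : Matrix V V ℝ) (ν : V → ℝ) (n : V → ℤ) (hK : K.PosSemidef) : 0 ≤ pot K ν n := by
  rw [pot_eq]
  exact Q_nonneg hK _

/-- lower bound of a positive definite form -/
theorem Q_low {K : Matrix V V ℝ} (hK : K.PosDef) :
    ∃ c : ℝ, 0 < c ∧ ∀ v : V → ℝ, c * ∑ x, v x ^ 2 ≤ Q K v := by
  have key : ∃ c : ℝ, 0 < c ∧ ∀ v : V → ℝ, ∑ x, v x ^ 2 = 1 → c ≤ Q K v := by
    by_cases hne : ∃ v : V → ℝ, ∑ x, v x ^ 2 = 1
    · have hcl : IsClosed {v : V → ℝ | ∑ x, v x ^ 2 = 1} := by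
        refine isClosed_eq ?_ continuous_const
        fun_prop
      have hbd : Bornology.IsBounded {v : V → ℝ | ∑ x, v x ^ 2 = 1} := by
        refine (Metric.isBounded_closedBall (x := (0 : V → ℝ)) (r := 1)).subset ?_
        intro v hv
        rw [Set.mem_ofPred_eq] at hv
        rw [mem_closedBall_zero_iff, pi_norm_le_iff_of_nonneg zero_le_one]
        intro x
        have h1 : v x ^ 2 ≤ ∑ x, v x ^ 2 :=
          Finset.single_le_sum (f := fun x => v x ^ 2) (fun _ _ => sq_nonneg _) (Finset.mem_univ x)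
        rw [hv] at h1
        rw [Real.norm_eq_abs]
        exact (sq_le_one_iff_abs_le_one _).1 h1
      have hcpt : IsCompact {v : V → ℝ | ∑ x, v x ^ 2 = 1} := Metric.isCompact_of_isClosed_isBounded hcl hbd
      obtain ⟨v0, hv0, hmin⟩ := hcpt.exists_isMinOn hne (Q_cont K).continuousOn
      refine ⟨Q K v0, Q_pos hK ?_, fun v hv => hmin hv⟩
      intro h0
      rw [Set.mem_ofPred_eq, h0] at hv0
      simp at hv0
    · exact ⟨1, one_pos, fun v hv => absurd ⟨v, hv⟩ hne⟩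
  obtain ⟨c, hc, hkey⟩ := key
  refine ⟨c, hc, fun v => ?_⟩
  have hs0 : 0 ≤ ∑ x, v x ^ 2 := Finset.sum_nonneg fun _ _ => sq_nonneg _
  rcases hs0.eq_or_lt with h0 | h0
  · rw [← h0, mul_zero]
    exact Q_nonneg hK.posSemidef v
  · set s : ℝ := ∑ x, v x ^ 2 with hs
    set t : ℝ := (Real.sqrt s)⁻¹ with ht
    have ht2 : t ^ 2 = s⁻¹ := by
      rw [ht, inv_pow, Real.sq_sqrt h0.le]
    have h1 := hkey (fun x => t * v x) (by
      calc ∑ x, (t * v x) ^ 2 = t ^ 2 * s := by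
            rw [hs, Finset.mul_sum]
            exact Finset.sum_congr rfl fun x _ => by ring
        _ = 1 := by rw [ht2]; exact inv_mul_cancel₀ h0.ne')
    rw [Q_smul, ht2] at h1
    calc c * s ≤ (s⁻¹ * Q K v) * s := mul_le_mul_of_nonneg_right h1 h0.le
      _ = Q K v := by field_simp

theorem potlow (K : Matrix V V ℝ) (ν : V → ℝ) (hK : K.PosDef) :
    ∃ κ C : ℝ, 0 < κ ∧ ∀ n, κ * N657.QR.sq n - C ≤ pot K ν n := by
  obtain ⟨c, hc, hQ⟩ := Q_low hK
  refine ⟨c / 2, c * ∑ x, ν x ^ 2, by positivity, fun n => ?_⟩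
  rw [pot_eq]
  refine le_trans ?_ (hQ _)
  have h1 : N657.QR.sq n / 2 - ∑ x, ν x ^ 2 ≤ ∑ x, ((n x : ℝ) - ν x) ^ 2 := by
    unfold N657.QR.sq
    rw [Finset.sum_div, ← Finset.sum_sub_distrib]
    refine Finset.sum_le_sum fun x _ => ?_
    nlinarith [sq_nonneg ((n x : ℝ) - 2 * ν x)]
  nlinarith

theorem Q_up (K : Matrix V V ℝ) (v : V → ℝ) : |Q K v| ≤ (∑ x, ∑ y, |K x y|) * ∑ x, v x ^ 2 := by
  unfold Q
  rw [Finset.sum_mul]
  refine (Finset.abs_sum_le_sum_abs _ _).trans (Finset.sum_le_sum fun x _ => ?_)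
  rw [Finset.sum_mul]
  refine (Finset.abs_sum_le_sum_abs _ _).trans (Finset.sum_le_sum fun y _ => ?_)
  rw [abs_mul]
  refine mul_le_mul_of_nonneg_left ?_ (abs_nonneg _)
  have h1 : ∀ x, v x ^ 2 ≤ ∑ x, v x ^ 2 := fun x =>
    Finset.single_le_sum (f := fun x => v x ^ 2) (fun _ _ => sq_nonneg _) (Finset.mem_univ x)
  rw [abs_mul]
  nlinarith [sq_nonneg (|v x| - |v y|), sq_abs (v x), sq_abs (v y), h1 x, h1 y]

theorem potup (K : Matrix V V ℝ) (ν : V → ℝ) :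
    ∃ C : ℝ, 0 ≤ C ∧ ∀ n, |pot K ν n| ≤ C * (1 + N657.QR.sq n) := by
  set M : ℝ := ∑ x, ∑ y, |K x y| with hM
  set S : ℝ := ∑ x, ν x ^ 2 with hS
  have hM0 : 0 ≤ M := Finset.sum_nonneg fun _ _ => Finset.sum_nonneg fun _ _ => abs_nonneg _
  have hS0 : 0 ≤ S := Finset.sum_nonneg fun _ _ => sq_nonneg _
  refine ⟨2 * M * (1 + S), by positivity, fun n => ?_⟩
  rw [pot_eq]
  refine (Q_up K _).trans ?_
  have hn0 : 0 ≤ N657.QR.sq n := Finset.sum_nonneg fun _ _ => sq_nonneg _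
  have h1 : ∑ x, ((n x : ℝ) - ν x) ^ 2 ≤ 2 * N657.QR.sq n + 2 * S := by
    unfold N657.QR.sq
    rw [hS, Finset.mul_sum, Finset.mul_sum, ← Finset.sum_add_distrib]
    refine Finset.sum_le_sum fun x _ => ?_
    nlinarith [sq_nonneg ((n x : ℝ) + ν x)]
  calc M * ∑ x, ((n x : ℝ) - ν x) ^ 2 ≤ M * (2 * N657.QR.sq n + 2 * S) := mul_le_mul_of_nonneg_left h1 hM0
    _ ≤ 2 * M * (1 + S) * (1 + N657.QR.sq n) := by
        have : 0 ≤ M * (1 + S * N657.QR.sq n) := by positivity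
        nlinarith

theorem posum (K : Matrix V V ℝ) (ν : V → ℝ) (ψ : (V → ℤ) → ℝ) (h : FE ψ) :
    Summable (fun n => pot K ν n * ψ n ^ 2) := by
  obtain ⟨C, _, hC⟩ := potup K ν
  refine Summable.of_norm_bounded (g := fun n => C * (ψ n ^ 2 + N657.QR.sq n * ψ n ^ 2))
    ((h.1.add h.2).mul_left C) fun n => ?_
  rw [Real.norm_eq_abs, abs_mul, abs_of_nonneg (sq_nonneg (ψ n))]
  calc |pot K ν n| * ψ n ^ 2 ≤ C * (1 + N657.QR.sq n) * ψ n ^ 2 :=
        mul_le_mul_of_nonneg_right (hC n) (sq_nonneg _)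
    _ = C * (ψ n ^ 2 + N657.QR.sq n * ψ n ^ 2) := by ring

theorem fsFE (ψ : (V → ℤ) → ℝ) (h : fs ψ) : FE ψ := by
  unfold fs at h
  refine ⟨summable_of_hasFiniteSupport (h.subset ?_), summable_of_hasFiniteSupport (h.subset ?_)⟩
  · intro n hn
    rw [Function.mem_support] at hn ⊢
    intro h0
    exact hn (by rw [h0]; ring)
  · intro n hn
    rw [Function.mem_support] at hn ⊢
    intro h0
    exact hn (by rw [h0]; ring)

theorem nrsmul (c : ℝ) (ψ : (V → ℤ) → ℝ) : nr (fun n => c * ψ n) = c ^ 2 * nr ψ := by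
  unfold nr
  rw [← tsum_mul_left]
  exact tsum_congr fun n => by ring

theorem crsmul (x y : V) (c : ℝ) (ψ : (V → ℤ) → ℝ) :
    cr x y (fun n => c * ψ n) = c ^ 2 * cr x y ψ := by
  unfold cr
  rw [← tsum_mul_left]
  exact tsum_congr fun n => by ring

theorem FFsmul (K : Matrix V V ℝ) (w : V → V → ℝ) (ν : V → ℝ) (c : ℝ) (ψ : (V → ℤ) → ℝ) :
    FF K w ν (fun n => c * ψ n) = c ^ 2 * FF K w ν ψ := by
  unfold FF
  rw [mul_sub]
  congr 1
  · unfold po
    rw [← tsum_mul_left]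
    exact tsum_congr fun n => by ring
  · rw [Finset.mul_sum]
    refine Finset.sum_congr rfl fun x _ => ?_
    rw [Finset.mul_sum]
    refine Finset.sum_congr rfl fun y _ => ?_
    rw [crsmul]
    ring

theorem FF_low (K : Matrix V V ℝ) (w : V → V → ℝ) (ν : V → ℝ) (ψ : (V → ℤ) → ℝ)
    (hK : K.PosSemidef) (hw : ∀ x y, 0 ≤ w x y) (hf : fs ψ) :
    -(∑ x, ∑ y, w x y) * nr ψ ≤ FF K w ν ψ := by
  unfold FF
  have h1 : 0 ≤ po K ν ψ := tsum_nonneg fun n => mul_nonneg (potnn K ν n hK) (sq_nonneg _)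
  have h2 : ∑ x, ∑ y, w x y * cr x y ψ ≤ (∑ x, ∑ y, w x y) * nr ψ := by
    rw [Finset.sum_mul]
    refine Finset.sum_le_sum fun x _ => ?_
    rw [Finset.sum_mul]
    refine Finset.sum_le_sum fun y _ => ?_
    exact mul_le_mul_of_nonneg_left ((le_abs_self _).trans (crle x y ψ (fsFE ψ hf).1)) (hw x y)
  linarith

theorem set_low (K : Matrix V V ℝ) (w : V → V → ℝ) (ν : V → ℝ) (N : ℤ)
    (hK : K.PosSemidef) (hw : ∀ x y, 0 ≤ w x y) (e : ℝ)
    (he : e ∈ {e | ∃ ψ : (V → ℤ) → ℝ, fs ψ ∧ Sec N ψ ∧ nr ψ = 1 ∧ e = FF K w ν ψ}) :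
    -(∑ x, ∑ y, w x y) ≤ e := by
  obtain ⟨ψ, hf, _, hn, rfl⟩ := he
  have h := FF_low K w ν ψ hK hw hf
  rw [hn, mul_one] at h
  exact h

theorem set_bdd (K : Matrix V V ℝ) (w : V → V → ℝ) (ν : V → ℝ) (N : ℤ)
    (hK : K.PosSemidef) (hw : ∀ x y, 0 ≤ w x y) :
    BddBelow {e | ∃ ψ : (V → ℤ) → ℝ, fs ψ ∧ Sec N ψ ∧ nr ψ = 1 ∧ e = FF K w ν ψ} :=
  ⟨_, fun e he => set_low K w ν N hK hw e he⟩

theorem set_ne [Nonempty V] (K : Matrix V V ℝ) (w : V → V → ℝ) (ν : V → ℝ) (N : ℤ) :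
    Set.Nonempty {e | ∃ ψ : (V → ℤ) → ℝ, fs ψ ∧ Sec N ψ ∧ nr ψ = 1 ∧ e = FF K w ν ψ} := by
  classical
  obtain ⟨x0⟩ := ‹Nonempty V›
  set n0 : V → ℤ := Pi.single x0 N with hn0
  refine ⟨_, fun n => if n = n0 then 1 else 0, ?_, ?_, ?_, rfl⟩
  · unfold fs
    refine (Set.finite_singleton n0).subset ?_
    intro n hn
    rw [Function.mem_support] at hn
    by_contra h0
    rw [Set.mem_singleton_iff] at h0
    exact hn (if_neg h0)
  · intro n hn
    have h0 : n = n0 := by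
      by_contra h0
      exact hn (if_neg h0)
    rw [h0]
    unfold tot
    rw [hn0, Finset.sum_pi_single']
    simp
  · unfold nr
    rw [tsum_eq_single n0]
    · simp
    · intro n hn
      show (if n = n0 then (1 : ℝ) else 0) ^ 2 = 0
      rw [if_neg hn]
      ring

theorem enlow [Nonempty V] (K : Matrix V V ℝ) (w : V → V → ℝ) (ν : V → ℝ) (N : ℤ)
    (hK : K.PosSemidef) (hw : ∀ x y, 0 ≤ w x y) : -(∑ x, ∑ y, w x y) ≤ en K w ν N :=
  le_csInf (set_ne K w ν N) fun e he => set_low K w ν N hK hw e he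

theorem enex [Nonempty V] (K : Matrix V V ℝ) (w : V → V → ℝ) (ν : V → ℝ) (N : ℤ) (ε : ℝ)
    (_hK : K.PosSemidef) (_hw : ∀ x y, 0 ≤ w x y) (hε : 0 < ε) :
    ∃ ψ : (V → ℤ) → ℝ, fs ψ ∧ Sec N ψ ∧ nr ψ = 1 ∧ FF K w ν ψ < en K w ν N + ε := by
  have h := exists_lt_of_csInf_lt (set_ne K w ν N)
    (show sInf {e | ∃ ψ : (V → ℤ) → ℝ, fs ψ ∧ Sec N ψ ∧ nr ψ = 1 ∧ e = FF K w ν ψ} < en K w ν N + ε by
      unfold en
      linarith)
  obtain ⟨e, ⟨ψ, h1, h2, h3, rfl⟩, h4⟩ := h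
  exact ⟨ψ, h1, h2, h3, h4⟩

theorem nr_nonneg (ψ : (V → ℤ) → ℝ) : 0 ≤ nr ψ := tsum_nonneg fun _ => sq_nonneg _

theorem enle [Nonempty V] (K : Matrix V V ℝ) (w : V → V → ℝ) (ν : V → ℝ) (N : ℤ)
    (ψ : (V → ℤ) → ℝ) (hK : K.PosSemidef) (hw : ∀ x y, 0 ≤ w x y) (hf : fs ψ) (hs : Sec N ψ) :
    en K w ν N * nr ψ ≤ FF K w ν ψ := by
  rcases (nr_nonneg ψ).eq_or_lt with h0 | h0
  · rw [← h0, mul_zero]
    have h1 := FF_low K w ν ψ hK hw hf
    rw [← h0, mul_zero] at h1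
    exact h1
  · set t : ℝ := (Real.sqrt (nr ψ))⁻¹ with ht
    have ht0 : t ≠ 0 := by
      rw [ht]
      exact inv_ne_zero (Real.sqrt_pos.2 h0).ne'
    have ht2 : t ^ 2 = (nr ψ)⁻¹ := by
      rw [ht, inv_pow, Real.sq_sqrt h0.le]
    have h1 : en K w ν N ≤ FF K w ν (fun n => t * ψ n) := by
      refine csInf_le (set_bdd K w ν N hK hw) ⟨fun n => t * ψ n, ?_, ?_, ?_, rfl⟩
      · unfold fs at hf ⊢
        refine hf.subset ?_
        intro n hn
        rw [Function.mem_support] at hn ⊢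
        intro h2
        exact hn (by rw [h2, mul_zero])
      · intro n hn
        refine hs n fun h2 => hn ?_
        show t * ψ n = 0
        rw [h2, mul_zero]
      · rw [nrsmul, ht2]
        exact inv_mul_cancel₀ h0.ne'
    rw [FFsmul, ht2] at h1
    calc en K w ν N * nr ψ ≤ ((nr ψ)⁻¹ * FF K w ν ψ) * nr ψ := mul_le_mul_of_nonneg_right h1 h0.le
      _ = FF K w ν ψ := by field_simp

theorem main : S_BAS where
  crcomm := crcomm
  crself := crself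
  crsum := crsum
  xxsum := xxsum
  crle := crle
  xxle := xxle
  potnn := potnn
  potlow := potlow
  potup := potup
  posum := posum
  fsFE := fsFE
  nrsmul := nrsmul
  FFsmul := FFsmul
  enle := enle
  enlow := enlow
  enex := enex

end Pool.Agent.N169.QR_BAS
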