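import Pool.Agent.N502.TM.Stm

/-!
TM/GAU: the heat kernel: mass one, semigroup law, tails.
-/

set_option autoImplicit false

namespace Pool.Agent.N169.TMGAU

open MeasureTheory Set Filter Topology
open scoped ENNReal Real
open Pool.Agent.N502.TM

theorem gauss (d : ℕ) {b : ℝ} (hb : 0 < b) :
    ∫⁻ v : V d, ENNReal.ofReal (Real.exp (-b * ‖v‖ ^ 2)) =
      ENNReal.ofReal ((π / b) ^ ((d : ℝ) / 2)) := by
  have h1 := GaussianFourier.integral_rexp_neg_mul_sq_norm (V := V d) hb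
  rw [finrank_euclideanSpace_fin] at h1
  have hpos : 0 < (π / b) ^ ((d : ℝ) / 2) := Real.rpow_pos_of_pos (div_pos Real.pi_pos hb) _
  have hint : Integrable (fun v : V d => Real.exp (-b * ‖v‖ ^ 2)) := by
    by_contra hcon
    rw [integral_undef hcon] at h1
    exact hpos.ne h1
  rw [← h1, ofReal_integral_eq_lintegral_ofReal hint]
  exact Filter.Eventually.of_forall fun v => (Real.exp_pos _).le

theorem heat_eq (d : ℕ) (s : ℝ) (z : V d) :
    heat d s z = (4 * π * s) ^ (-((d : ℝ) / 2)) * Real.exp (-(1 / (4 * s)) * ‖z‖ ^ 2) := by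
  unfold heat
  have h1 : -(d : ℝ) / 2 = -((d : ℝ) / 2) := by ring
  have h2 : -‖z‖ ^ 2 / (4 * s) = -(1 / (4 * s)) * ‖z‖ ^ 2 := by ring
  rw [h1, h2]

theorem heat_nonneg (d : ℕ) {s : ℝ} (hs : 0 < s) (z : V d) : 0 ≤ heat d s z := by
  unfold heat
  have := Real.pi_pos
  positivity

theorem one' (d : ℕ) (s : ℝ) (hs : 0 < s) : ∫⁻ x : V d, ENNReal.ofReal (heat d s x) = 1 := by
  have hp := Real.pi_pos
  have hb : 0 < 4 * π * s := by positivity
  have hc : 0 ≤ (4 * π * s) ^ (-((d : ℝ) / 2)) := Real.rpow_nonneg hb.le _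
  simp only [heat_eq, ENNReal.ofReal_mul hc]
  rw [lintegral_const_mul' _ _ ENNReal.ofReal_ne_top, gauss d (by positivity),
    ← ENNReal.ofReal_mul hc]
  have h1 : π / (1 / (4 * s)) = 4 * π * s := by
    field_simp
  rw [h1, Real.rpow_neg hb.le, inv_mul_cancel₀ (Real.rpow_pos_of_pos hb _).ne', ENNReal.ofReal_one]

theorem square (d : ℕ) {s t : ℝ} (hs : 0 < s) (ht : 0 < t) (x y : V d) :
    -(1 / (4 * s)) * ‖x - y‖ ^ 2 + -(1 / (4 * t)) * ‖y‖ ^ 2 =
      -(1 / (4 * (s + t))) * ‖x‖ ^ 2 +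
        -((s + t) / (4 * s * t)) * ‖y - (t / (s + t)) • x‖ ^ 2 := by
  have hst : s + t ≠ 0 := by positivity
  rw [norm_sub_sq_real, norm_sub_sq_real, norm_smul, inner_smul_right, real_inner_comm x y,
    mul_pow, Real.norm_eq_abs, sq_abs]
  field_simp
  ring

theorem conv' (d : ℕ) (s t : ℝ) (hs : 0 < s) (ht : 0 < t) (x : V d) :
    ∫⁻ y : V d, ENNReal.ofReal (heat d s (x - y)) * ENNReal.ofReal (heat d t y) =
      ENNReal.ofReal (heat d (s + t) x) := by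
  have hp := Real.pi_pos
  have hbs : 0 < 4 * π * s := by positivity
  have hbt : 0 < 4 * π * t := by positivity
  have hbst : 0 < 4 * π * (s + t) := by positivity
  set K : ℝ := (4 * π * s) ^ (-((d : ℝ) / 2)) * (4 * π * t) ^ (-((d : ℝ) / 2)) *
    Real.exp (-(1 / (4 * (s + t))) * ‖x‖ ^ 2) with hK
  have hK0 : 0 ≤ K := by positivity
  have hb : 0 < (s + t) / (4 * s * t) := by positivity
  have h1 : ∀ y : V d, ENNReal.ofReal (heat d s (x - y)) * ENNReal.ofReal (heat d t y) =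
      ENNReal.ofReal K *
        ENNReal.ofReal (Real.exp (-((s + t) / (4 * s * t)) * ‖y - (t / (s + t)) • x‖ ^ 2)) := by
    intro y
    rw [← ENNReal.ofReal_mul (heat_nonneg d hs _), ← ENNReal.ofReal_mul hK0]
    congr 1
    rw [heat_eq, heat_eq, hK]
    have h2 := square d hs ht x y
    have h3 : Real.exp (-(1 / (4 * s)) * ‖x - y‖ ^ 2) * Real.exp (-(1 / (4 * t)) * ‖y‖ ^ 2) =
        Real.exp (-(1 / (4 * (s + t))) * ‖x‖ ^ 2) *
          Real.exp (-((s + t) / (4 * s * t)) * ‖y - (t / (s + t)) • x‖ ^ 2) := by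
      rw [← Real.exp_add, ← Real.exp_add, h2]
    calc _ = (4 * π * s) ^ (-((d : ℝ) / 2)) * (4 * π * t) ^ (-((d : ℝ) / 2)) *
          (Real.exp (-(1 / (4 * s)) * ‖x - y‖ ^ 2) * Real.exp (-(1 / (4 * t)) * ‖y‖ ^ 2)) := by
            ring
      _ = _ := by
        rw [h3]
        ring
  rw [lintegral_congr h1, lintegral_const_mul' _ _ ENNReal.ofReal_ne_top]
  rw [lintegral_sub_right_eq_self (μ := (volume : Measure (V d)))
    (fun y : V d => ENNReal.ofReal (Real.exp (-((s + t) / (4 * s * t)) * ‖y‖ ^ 2)))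
    ((t / (s + t)) • x), gauss d hb, ← ENNReal.ofReal_mul hK0]
  congr 1
  rw [heat_eq, hK]
  have hpb : 0 < π / ((s + t) / (4 * s * t)) := div_pos hp hb
  have h4 : (π / ((s + t) / (4 * s * t))) ^ ((d : ℝ) / 2) =
      ((π / ((s + t) / (4 * s * t)))⁻¹) ^ (-((d : ℝ) / 2)) := by
    rw [Real.rpow_neg (by positivity), Real.inv_rpow hpb.le, inv_inv]
  have h5 : (4 * π * s) ^ (-((d : ℝ) / 2)) * (4 * π * t) ^ (-((d : ℝ) / 2)) *
      ((π / ((s + t) / (4 * s * t)))⁻¹) ^ (-((d : ℝ) / 2)) =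
        (4 * π * (s + t)) ^ (-((d : ℝ) / 2)) := by
    rw [← Real.mul_rpow hbs.le hbt.le, ← Real.mul_rpow (by positivity) (by positivity)]
    congr 1
    field_simp
  rw [h4, ← h5]
  ring

theorem heat_tail (d : ℕ) {s ρ : ℝ} (hs : 0 < s) (hρ : 0 < ρ) (x : V d) (hx : ρ < ‖x‖) :
    heat d s x ≤ ((2 : ℝ) ^ ((d : ℝ) / 2) * Real.exp (-(ρ ^ 2 / (8 * s)))) * heat d (2 * s) x := by
  have hp := Real.pi_pos
  have hb : 0 < 4 * π * s := by positivity
  have hb2 : 0 < 4 * π * (2 * s) := by positivity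
  rw [heat_eq, heat_eq]
  have h1 : (4 * π * s) ^ (-((d : ℝ) / 2)) =
      (2 : ℝ) ^ ((d : ℝ) / 2) * (4 * π * (2 * s)) ^ (-((d : ℝ) / 2)) := by
    have e : 4 * π * (2 * s) = 2 * (4 * π * s) := by ring
    rw [e, Real.mul_rpow (by norm_num) hb.le, ← mul_assoc, ← Real.rpow_add (by norm_num),
      add_neg_cancel, Real.rpow_zero, one_mul]
  have h2 : Real.exp (-(1 / (4 * s)) * ‖x‖ ^ 2) ≤
      Real.exp (-(ρ ^ 2 / (8 * s))) * Real.exp (-(1 / (4 * (2 * s))) * ‖x‖ ^ 2) := by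
    rw [← Real.exp_add]
    apply Real.exp_le_exp.2
    have h3 : ρ ^ 2 ≤ ‖x‖ ^ 2 := pow_le_pow_left₀ hρ.le hx.le 2
    have h4 : -(ρ ^ 2 / (8 * s)) + -(1 / (4 * (2 * s))) * ‖x‖ ^ 2 - -(1 / (4 * s)) * ‖x‖ ^ 2 =
        (‖x‖ ^ 2 - ρ ^ 2) / (8 * s) := by
      field_simp
      ring
    have h5 : 0 ≤ (‖x‖ ^ 2 - ρ ^ 2) / (8 * s) := div_nonneg (by linarith) (by positivity)
    linarith
  rw [h1]
  calc _ ≤ (2 : ℝ) ^ ((d : ℝ) / 2) * (4 * π * (2 * s)) ^ (-((d : ℝ) / 2)) *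
        (Real.exp (-(ρ ^ 2 / (8 * s))) * Real.exp (-(1 / (4 * (2 * s))) * ‖x‖ ^ 2)) :=
        mul_le_mul_of_nonneg_left h2 (by positivity)
    _ = _ := by ring

theorem tail' (d : ℕ) (ρ : ℝ) (hρ : 0 < ρ) :
    Tendsto (fun s : ℝ => ∫⁻ x : V d in {x | ρ < ‖x‖}, ENNReal.ofReal (heat d s x))
      (𝓝[>] 0) (𝓝 0) := by
  have hlim : Tendsto (fun s : ℝ => ENNReal.ofReal
      ((2 : ℝ) ^ ((d : ℝ) / 2) * Real.exp (-(ρ ^ 2 / (8 * s))))) (𝓝[>] 0) (𝓝 0) := by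
    have h1 : Tendsto (fun s : ℝ => ρ ^ 2 / (8 * s)) (𝓝[>] 0) atTop := by
      have h2 : Tendsto (fun s : ℝ => (ρ ^ 2 / 8) * s⁻¹) (𝓝[>] 0) atTop :=
        tendsto_inv_nhdsGT_zero.const_mul_atTop (by positivity)
      refine h2.congr fun s => ?_
      rw [div_mul_eq_mul_div, mul_comm 8 s, ← div_div, div_eq_mul_inv (ρ ^ 2) s]
    have h3 : Tendsto (fun s : ℝ => (2 : ℝ) ^ ((d : ℝ) / 2) * Real.exp (-(ρ ^ 2 / (8 * s))))
        (𝓝[>] 0) (𝓝 ((2 : ℝ) ^ ((d : ℝ) / 2) * 0)) :=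
      (Real.tendsto_exp_atBot.comp (tendsto_neg_atTop_atBot.comp h1)).const_mul _
    rw [mul_zero] at h3
    have h4 := ENNReal.tendsto_ofReal h3
    rwa [ENNReal.ofReal_zero] at h4
  refine tendsto_of_tendsto_of_tendsto_of_le_of_le' tendsto_const_nhds hlim
    (Eventually.of_forall fun s => zero_le) ?_
  filter_upwards [self_mem_nhdsWithin] with s hs
  have hs0 : (0 : ℝ) < s := hs
  set C : ℝ := (2 : ℝ) ^ ((d : ℝ) / 2) * Real.exp (-(ρ ^ 2 / (8 * s))) with hC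
  have hC0 : 0 ≤ C := by positivity
  have hmeas : MeasurableSet {x : V d | ρ < ‖x‖} :=
    measurableSet_lt measurable_const measurable_norm
  calc ∫⁻ x : V d in {x | ρ < ‖x‖}, ENNReal.ofReal (heat d s x)
      ≤ ∫⁻ x : V d in {x | ρ < ‖x‖}, ENNReal.ofReal C * ENNReal.ofReal (heat d (2 * s) x) := by
        refine setLIntegral_mono' hmeas fun x hx => ?_
        rw [← ENNReal.ofReal_mul hC0]
        exact ENNReal.ofReal_le_ofReal (heat_tail d hs0 hρ x hx)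
    _ ≤ ∫⁻ x : V d, ENNReal.ofReal C * ENNReal.ofReal (heat d (2 * s) x) :=
        setLIntegral_le_lintegral _ _
    _ = ENNReal.ofReal C := by
        rw [lintegral_const_mul' _ _ ENNReal.ofReal_ne_top, one' d (2 * s) (by positivity), mul_one]

theorem main : Pool.Agent.N502.TM.S_GAU where
  one := one'
  conv := conv'
  tail := tail'

end Pool.Agent.N169.TMGAU
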