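import Pool.Agent.N841.WS.Stm

set_option autoImplicit false

/-! # Project WS (helper841), leaf NB (helper169): completion of a totally bounded group -/

open Cardinal Topology TopologicalSpace Set Filter

namespace Pool.Agent.N169.WSNB

open Pool.Agent.N841.WS

theorem nb_uniform (h1 : S_PW) (h2 : S_SEP) (G : Type) [AddCommGroup G] [UniformSpace G]
    [IsUniformAddGroup G] (h : TBd G) : ∀ U ∈ 𝓝 (0 : G), ∃ F : Finset (Ch G), ∃ ε : ℝ, 0 < ε ∧
      ∀ x : G, (∀ χ ∈ F, dist (χ.1 x) 1 < ε) → x ∈ U := by
  classical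
  intro U hU
  have htb : TotallyBounded (univ : Set G) := by
    rw [totallyBounded_iff_subset_finite_iUnion_nhds_zero]
    intro V hV
    obtain ⟨F, hF⟩ := h V hV
    refine ⟨(F : Set G), F.finite_toSet, ?_⟩
    intro g _
    obtain ⟨x, hx, hgx⟩ := hF g
    refine mem_iUnion₂.2 ⟨x, hx, ?_⟩
    rw [mem_vadd_set]
    exact ⟨g - x, hgx, by simp [vadd_eq_add]⟩
  let K := UniformSpace.Completion G
  have hK : CompactSpace K := by
    constructor
    have e1 : TotallyBounded (range ((↑) : G → K)) := by
      rw [← image_univ]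
      exact htb.image (UniformSpace.Completion.uniformContinuous_coe G)
    have e2 : TotallyBounded (univ : Set K) := by
      have := e1.closure
      rwa [(UniformSpace.Completion.denseRange_coe (α := G)).closure_range] at this
    exact e2.isCompact_of_isClosed isClosed_univ
  -- a neighbourhood of `0` in the completion
  have hU' : U ∈ comap ((↑) : G → K) (𝓝 ((0 : G) : K)) := by
    rw [← (UniformSpace.Completion.isUniformInducing_coe G).isInducing.nhds_eq_comap]
    exact hU
  obtain ⟨V, hV, hVU⟩ := mem_comap.1 hU'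
  rw [UniformSpace.Completion.coe_zero] at hV
  obtain ⟨F, -, ε, hε, hF⟩ := h2 K (univ : Set (Ch K))
    (fun x hx => by
      obtain ⟨χ, hχ⟩ := h1 K x hx
      exact ⟨χ, mem_univ _, hχ⟩) V hV
  let pull : Ch K → Ch G := fun χ => ⟨fun x => χ.1 (x : K),
    χ.2.1.comp (UniformSpace.Completion.continuous_coe G), fun x y => by
      show χ.1 ((x + y : G) : K) = _
      rw [UniformSpace.Completion.coe_add]
      exact χ.2.2 _ _⟩
  refine ⟨F.image pull, ε, hε, ?_⟩
  intro x hx
  apply hVU
  apply hF
  intro χ hχ
  exact hx (pull χ) (Finset.mem_image_of_mem pull hχ)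

theorem t_NB : S_PW → S_SEP → S_NB := by
  intro h1 h2 G _ _ _ _ h
  letI : UniformSpace G := IsTopologicalAddGroup.rightUniformSpace G
  haveI : IsUniformAddGroup G := isUniformAddGroup_of_addCommGroup
  exact nb_uniform h1 h2 G h

end Pool.Agent.N169.WSNB
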